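import Mathlib

open Module Matrix
open scoped ComplexOrder

namespace Pool.Agent.H3.Artin

section Conj

variable {G : Type*} [Group G] [Finite G] {V : Type*} [AddCommGroup V] [Module ℂ V]
  [FiniteDimensional ℂ V]

/-- characters of finite groups: the value at the inverse is the complex conjugate -/
theorem character_inv (ρ : Representation ℂ G V) (x : G) :
    ρ.character x⁻¹ = (starRingEnd ℂ) (ρ.character x) := by
  classical
  cases nonempty_fintype G
  let b := Module.finBasis ℂ V
  let A : G → Matrix (Fin (finrank ℂ V)) (Fin (finrank ℂ V)) ℂ := fun g => LinearMap.toMatrix b b (ρ g)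
  have hmul : ∀ g h, A (g * h) = A g * A h := by
    intro g h
    change LinearMap.toMatrix b b (ρ (g * h)) = _
    rw [map_mul, Module.End.mul_eq_comp, LinearMap.toMatrix_comp b b b]
  have hone : A 1 = 1 := by
    change LinearMap.toMatrix b b (ρ 1) = _
    rw [map_one, Module.End.one_eq_id, LinearMap.toMatrix_id]
  have htr : ∀ g, ρ.character g = (A g).trace := fun g =>
    LinearMap.trace_eq_matrix_trace ℂ b (ρ g)
  let H : Matrix (Fin (finrank ℂ V)) (Fin (finrank ℂ V)) ℂ := ∑ g : G, (A g)ᴴ * A g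
  have hH : H.PosDef := by
    have h1 : H = (A 1)ᴴ * A 1 + ∑ g ∈ Finset.univ.erase (1 : G), (A g)ᴴ * A g :=
      (Finset.add_sum_erase _ _ (Finset.mem_univ 1)).symm
    rw [h1, hone]
    refine Matrix.PosDef.add_posSemidef ?_ ?_
    · rw [conjTranspose_one, one_mul]
      exact Matrix.PosDef.one
    · refine Matrix.posSemidef_sum _ fun g _ => ?_
      exact Matrix.posSemidef_conjTranspose_mul_self (A g)
  have hinv : (A x)ᴴ * H * A x = H := by
    change (A x)ᴴ * (∑ g : G, (A g)ᴴ * A g) * A x = ∑ g : G, (A g)ᴴ * A g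
    rw [Finset.mul_sum, Finset.sum_mul,
      ← Equiv.sum_comp (Equiv.mulRight x) (fun g => (A g)ᴴ * A g)]
    refine Finset.sum_congr rfl fun g _ => ?_
    rw [Equiv.coe_mulRight, hmul, conjTranspose_mul]
    simp only [Matrix.mul_assoc]
  have hdet : IsUnit H.det := hH.isUnit.map Matrix.detMonoidHom
  have h2 : (A x)ᴴ * H = H * A x⁻¹ := by
    have h3 : A x * A x⁻¹ = 1 := by rw [← hmul, mul_inv_cancel, hone]
    calc (A x)ᴴ * H = (A x)ᴴ * H * (A x * A x⁻¹) := by rw [h3, mul_one]
      _ = ((A x)ᴴ * H * A x) * A x⁻¹ := by simp only [Matrix.mul_assoc]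
      _ = H * A x⁻¹ := by rw [hinv]
  have h4 : A x⁻¹ = H⁻¹ * ((A x)ᴴ * H) := by
    rw [h2, ← Matrix.mul_assoc, Matrix.nonsing_inv_mul H hdet, one_mul]
  rw [htr, htr, h4, Matrix.trace_mul_comm, Matrix.mul_assoc, Matrix.mul_nonsing_inv H hdet, mul_one,
    Matrix.trace_conjTranspose]
  rfl

end Conj

end Pool.Agent.H3.Artin
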