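import Mathlib
import Pool.Agent.H3.Artin.ConjChar
import Pool.Agent.H3.Cheb.Chebotarev

open NumberField IsDedekindDomain Filter Topology Module

namespace Pool.Agent.H3.Artin

open TatePole Cheb

section Descend

/-- a representation trivial on the kernel of a surjection comes from the quotient -/
lemma exists_descend {Γ G R V : Type*} [Group Γ] [Group G] [CommSemiring R] [AddCommMonoid V]
    [Module R V] (π : Γ →* G) (hπ : Function.Surjective π) (U : Representation R Γ V)
    (hU : ∀ σ, π σ = 1 → U σ = 1) : ∃ U' : Representation R G V, ∀ σ, U' (π σ) = U σ := by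
  have key : ∀ σ τ, π σ = π τ → U σ = U τ := by
    intro σ τ h
    have h1 : π (σ⁻¹ * τ) = 1 := by rw [map_mul, map_inv, h, inv_mul_cancel]
    have h2 := hU _ h1
    have h3 : U σ * U (σ⁻¹ * τ) = U τ := by rw [← map_mul, mul_inv_cancel_left]
    rw [h2, mul_one] at h3
    exact h3
  have hsi : ∀ g, π (Function.surjInv hπ g) = g := Function.surjInv_eq hπ
  refine ⟨
    { toFun := fun g => U (Function.surjInv hπ g)
      map_one' := ?_
      map_mul' := ?_ }, ?_⟩
  · rw [← map_one U]
    apply key
    rw [hsi, map_one]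
  · intro g h
    rw [← map_mul]
    apply key
    rw [hsi, map_mul, hsi, hsi]
  · intro σ
    apply key
    rw [hsi]

end Descend

section MeanChar

variable {k : Type*} [Field k] [NumberField k] {Ω : Type*} [Field Ω] [Algebra k Ω] [IsGalois k Ω]
variable [IsAlgClosed Ω]

/-- mean of the character of a representation of the Galois group of a finite extension -/
theorem mean_character_finite (M : IntermediateField k Ω) [FiniteDimensional k M] [Normal k M]
    {U : Type*} [AddCommGroup U] [Module ℂ U] [FiniteDimensional ℂ U]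
    (τ : Representation ℂ Gal(M/k) U) :
    HasMean (𝓝[>] 1) (fun 𝔭 : HeightOneSpectrum (𝓞 k) =>
      (τ.character (AlgEquiv.restrictNormalHom M (frobeniusAt Ω 𝔭).φ)).re)
      (finrank ℂ τ.invariants) := by
  classical
  have h1 := chebotarev_sym M (fun g => (τ.character g).re) (fun y g => by
    have := τ.char_conj g y⁻¹
    rw [inv_inv] at this
    rw [this]) (fun x => by
    rw [character_inv, Complex.conj_re])
  have h2 : (∑ x : Gal(M/k), (τ.character x).re) / Fintype.card Gal(M/k) =
      (finrank ℂ τ.invariants : ℝ) := by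
    have hcard : (Nat.card Gal(M/k) : ℂ) ≠ 0 := by exact_mod_cast Nat.card_pos.ne'
    letI : Invertible (Nat.card Gal(M/k) : ℂ) := invertibleOfNonzero hcard
    have h3 := τ.card_inv_mul_sum_char_eq_finrank
    have h4 : ∑ g : Gal(M/k), τ.character g =
        (Nat.card Gal(M/k) : ℂ) * (finrank ℂ τ.invariants : ℂ) := by
      rw [← h3, mul_inv_cancel_left₀ hcard]
    have h5 := congrArg Complex.re h4
    rw [Complex.re_sum] at h5
    rw [h5, ← Nat.card_eq_fintype_card]
    have h6 : (Nat.card Gal(M/k) : ℝ) ≠ 0 := by exact_mod_cast Nat.card_pos.ne'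
    rw [show ((Nat.card Gal(M/k) : ℂ) * (finrank ℂ τ.invariants : ℂ)) =
      ((Nat.card Gal(M/k) * finrank ℂ τ.invariants : ℝ) : ℂ) by push_cast; rfl,
      Complex.ofReal_re, mul_div_cancel_left₀ _ h6]
  rw [h2] at h1
  exact h1

lemma restrictNormal_eq_one {M : IntermediateField k Ω} [Normal k M] {σ : Gal(Ω/k)}
    (h : AlgEquiv.restrictNormalHom M σ = 1) : σ ∈ M.fixingSubgroup := by
  rw [← IntermediateField.restrictNormalHom_ker]
  exact h

/-- mean of the character of a representation with finite image -/
theorem mean_character (M : IntermediateField k Ω) [FiniteDimensional k M] [Normal k M]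
    {U : Type*} [AddCommGroup U] [Module ℂ U] [FiniteDimensional ℂ U]
    (τ : Representation ℂ Gal(Ω/k) U) (hτ : ∀ σ ∈ M.fixingSubgroup, τ σ = 1) :
    HasMean (𝓝[>] 1) (fun 𝔭 : HeightOneSpectrum (𝓞 k) =>
      (τ.character (frobeniusAt Ω 𝔭).φ⁻¹).re) (finrank ℂ τ.invariants) := by
  classical
  have hs : Function.Surjective (AlgEquiv.restrictNormalHom (F := k) (K₁ := Ω) M) :=
    AlgEquiv.restrictNormalHom_surjective Ω
  obtain ⟨τ', hτ'⟩ := exists_descend (AlgEquiv.restrictNormalHom (F := k) (K₁ := Ω) M) hs τ
    (fun σ hσ => hτ σ (restrictNormal_eq_one hσ))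
  have h1 := mean_character_finite (Ω := Ω) M τ'
  have hinv : τ'.invariants = τ.invariants := by
    ext v
    rw [Representation.mem_invariants, Representation.mem_invariants]
    constructor
    · intro h σ
      rw [← hτ']
      exact h _
    · intro h g
      obtain ⟨σ, rfl⟩ := hs g
      rw [hτ']
      exact h σ
  rw [hinv] at h1
  convert h1 using 2 with 𝔭
  have e1 : τ.character (frobeniusAt Ω 𝔭).φ⁻¹ =
      τ'.character (AlgEquiv.restrictNormalHom M (frobeniusAt Ω 𝔭).φ)⁻¹ := by
    unfold Representation.character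
    rw [← map_inv, hτ']
  rw [e1, character_inv, Complex.conj_re]

end MeanChar

end Pool.Agent.H3.Artin
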