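import Mathlib

open Module

namespace Pool.Agent.H3.Artin

section LinAlg

variable {V A : Type*} [AddCommGroup V] [Module ℂ V] [FiniteDimensional ℂ V]
  [AddCommGroup A] [Module ℂ A] [FiniteDimensional ℂ A]

lemma norm_sum_le_card_mul (s : Multiset ℂ) (N : ℝ) (h : ∀ z ∈ s, ‖z‖ ≤ N) :
    ‖s.sum‖ ≤ (Multiset.card s : ℝ) * N := by
  induction s using Multiset.induction_on with
  | empty => simp
  | cons a s ih =>
    rw [Multiset.sum_cons, Multiset.card_cons]
    have h1 := h a (Multiset.mem_cons_self a s)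
    have h2 := ih fun z hz => h z (Multiset.mem_cons_of_mem hz)
    push_cast
    calc ‖a + s.sum‖ ≤ ‖a‖ + ‖s.sum‖ := norm_add_le _ _
      _ ≤ N + (Multiset.card s : ℝ) * N := add_le_add h1 h2
      _ = _ := by ring

lemma trace_eq_sum_roots (f : V →ₗ[ℂ] V) : LinearMap.trace ℂ V f = f.charpoly.roots.sum :=
  Module.End.trace_eq_sum_roots_charpoly_of_splits (IsAlgClosed.splits _)

lemma card_roots_charpoly (f : V →ₗ[ℂ] V) : Multiset.card f.charpoly.roots = finrank ℂ V := by
  rw [Polynomial.splits_iff_card_roots.mp (IsAlgClosed.splits f.charpoly),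
    LinearMap.charpoly_natDegree]

lemma mem_roots_charpoly (f : V →ₗ[ℂ] V) (z : ℂ) :
    z ∈ f.charpoly.roots ↔ ∃ v : V, v ≠ 0 ∧ f v = z • v := by
  rw [Polynomial.mem_roots (LinearMap.charpoly_monic f).ne_zero,
    ← Module.End.hasEigenvalue_iff_isRoot_charpoly]
  constructor
  · intro h
    obtain ⟨v, hv⟩ := h.exists_hasEigenvector
    exact ⟨v, hv.2, hv.apply_eq_smul⟩
  · rintro ⟨v, hv, hf⟩
    exact Module.End.hasEigenvalue_of_hasEigenvector (x := v)
      ⟨Module.End.mem_eigenspace_iff.mpr hf, hv⟩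

/-- trace on a space modulo an invariant subspace -/
lemma trace_sub_bound (f : V →ₗ[ℂ] V) (cl : A →ₗ[ℂ] V) (hcl : Function.Injective cl)
    (h : A →ₗ[ℂ] A) (hf : ∀ a, f (cl a) = cl (h a)) (N : ℝ)
    (hN : ∀ z ∈ f.charpoly.roots, ‖z‖ ≤ N) :
    ‖LinearMap.trace ℂ V f - LinearMap.trace ℂ A h‖ ≤ ((finrank ℂ V : ℝ) - finrank ℂ A) * N := by
  obtain ⟨C, hC⟩ := Submodule.exists_isCompl (LinearMap.range cl)
  set U : Submodule ℂ V := LinearMap.range cl with hU
  have hfU : ∀ u ∈ U, f u ∈ U := by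
    rintro _ ⟨a, rfl⟩
    rw [hf]
    exact ⟨h a, rfl⟩
  let q : V →ₗ[ℂ] U := U.projectionOnto C hC
  let p : V →ₗ[ℂ] C := C.projectionOnto U hC.symm
  have hid : ∀ v : V, (q v : V) + (p v : V) = v := by
    intro v
    have hv : v ∈ U ⊔ C := by rw [hC.sup_eq_top]; exact Submodule.mem_top
    obtain ⟨x, hx, y, hy, rfl⟩ := Submodule.mem_sup.mp hv
    have e1 : q x = ⟨x, hx⟩ := Submodule.projectionOnto_apply_left hC ⟨x, hx⟩
    have e2 : q y = 0 := Submodule.projectionOnto_apply_right hC ⟨y, hy⟩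
    have e3 : p x = 0 := Submodule.projectionOnto_apply_right hC.symm ⟨x, hx⟩
    have e4 : p y = ⟨y, hy⟩ := Submodule.projectionOnto_apply_left hC.symm ⟨y, hy⟩
    rw [map_add, map_add, e1, e2, e3, e4, add_zero, zero_add]
  let g : C →ₗ[ℂ] C := p ∘ₗ f ∘ₗ C.subtype
  have htr : LinearMap.trace ℂ V f = LinearMap.trace ℂ A h + LinearMap.trace ℂ C g := by
    have e1 : f = (f ∘ₗ U.subtype) ∘ₗ q + (f ∘ₗ C.subtype) ∘ₗ p := by
      ext v
      simp only [LinearMap.add_apply, LinearMap.comp_apply, Submodule.subtype_apply]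
      rw [← map_add, hid]
    have e2 : LinearMap.trace ℂ V ((f ∘ₗ C.subtype) ∘ₗ p) = LinearMap.trace ℂ C g := by
      rw [LinearMap.trace_comp_comm']
    have e3 : LinearMap.trace ℂ V ((f ∘ₗ U.subtype) ∘ₗ q) = LinearMap.trace ℂ A h := by
      rw [LinearMap.trace_comp_comm']
      let e : A ≃ₗ[ℂ] U := LinearEquiv.ofInjective cl hcl
      rw [← LinearMap.trace_conj' h e]
      congr 1
      ext u
      obtain ⟨a, rfl⟩ := e.surjective u
      rw [LinearEquiv.conj_apply_apply, LinearEquiv.symm_apply_apply]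
      have h1 : ((e a : U) : V) = cl a := rfl
      have h2 : ((e (h a) : U) : V) = cl (h a) := rfl
      have h3 : f (cl a) = ((e (h a) : U) : V) := by rw [h2, hf]
      simp only [LinearMap.comp_apply, Submodule.subtype_apply]
      rw [h1, h3]
      congr 1
      exact Submodule.projectionOnto_apply_left hC (e (h a))
    conv_lhs => rw [e1]
    rw [map_add, e2, e3]
  have hdim : (finrank ℂ C : ℝ) = (finrank ℂ V : ℝ) - finrank ℂ A := by
    have h1 := Submodule.finrank_add_eq_of_isCompl hC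
    have h2 : finrank ℂ U = finrank ℂ A := LinearMap.finrank_range_of_inj hcl
    rw [h2] at h1
    rw [← h1]
    push_cast
    ring
  rw [htr, add_sub_cancel_left, trace_eq_sum_roots, ← hdim, ← card_roots_charpoly g]
  refine norm_sum_le_card_mul _ N fun z hz => hN z ?_
  rw [mem_roots_charpoly] at hz ⊢
  obtain ⟨c, hc0, hc⟩ := hz
  by_contra hcon
  push Not at hcon
  have hinj : ∀ v : V, f v - z • v = 0 → v = 0 := by
    intro v hv
    by_contra hv0
    exact hcon v hv0 (sub_eq_zero.mp hv)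
  -- the restriction to `U` is surjective
  let k : U →ₗ[ℂ] U := (f.restrict hfU) - z • LinearMap.id
  have hk : ∀ u : U, ((k u : U) : V) = f u - z • (u : V) := fun u => rfl
  have hkinj : Function.Injective k := by
    rw [← LinearMap.ker_eq_bot, LinearMap.ker_eq_bot']
    intro u hu
    apply Subtype.ext
    apply hinj
    rw [← hk, hu]
    rfl
  have hksurj : Function.Surjective k := LinearMap.surjective_of_injective hkinj
  have h1 : p (f c - z • (c : V)) = 0 := by
    rw [map_sub, map_smul]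
    have h2 : p (f (c : V)) = z • c := hc
    have h3 : p (c : V) = c := Submodule.projectionOnto_apply_left hC.symm c
    rw [h2, h3, sub_self]
  have h2 : f c - z • (c : V) ∈ U := by
    rw [← Submodule.ker_projectionOnto hC.symm]
    exact LinearMap.mem_ker.mpr h1
  obtain ⟨u, hu⟩ := hksurj ⟨_, h2⟩
  have h3 : f u - z • (u : V) = f c - z • (c : V) := by
    rw [← hk, hu]
  have h4 : f ((c : V) - u) - z • ((c : V) - u) = 0 := by
    rw [map_sub, smul_sub]
    rw [sub_sub_sub_comm, ← h3, sub_self]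
  have h5 := hinj _ h4
  have h6 : (c : V) = u := sub_eq_zero.mp h5
  have h7 : (c : V) ∈ U ⊓ C := ⟨by rw [h6]; exact u.2, c.2⟩
  rw [hC.inf_eq_bot] at h7
  exact hc0 (Subtype.ext ((Submodule.mem_bot ℂ).mp h7))

end LinAlg

end Pool.Agent.H3.Artin
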