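import Mathlib
import Pool.Agent.H3.Artin.TraceBound
import Pool.Agent.H3.TatePole.Weights
import Pool.Agent.H3.TatePole.Fix

open NumberField IsDedekindDomain Filter Topology Module Polynomial
open scoped TensorProduct Pointwise

namespace Pool.Agent.H3.Artin

open TatePole


section FrobAt

variable {F : Type*} [Field F] [NumberField F] {Ω : Type*} [Field Ω] [Algebra F Ω] [IsGalois F Ω]

/-- Frobenius elements exist at every given prime of `𝓞 Ω`. -/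
theorem exists_frobeniusAt_prime (𝔭 : HeightOneSpectrum (𝓞 F)) (Q : Ideal (𝓞 Ω)) (hQ : Q.IsPrime)
    (h : Q.under (𝓞 F) = 𝔭.asIdeal) : ∃ D : FrobeniusAt Ω 𝔭, D.Q = Q := by
  letI : TopologicalSpace (𝓞 Ω) := ⊥
  haveI : DiscreteTopology (𝓞 Ω) := ⟨rfl⟩
  haveI : ContinuousSMul Gal(Ω/F) (𝓞 Ω) := continuousSMul_gal
  haveI : Algebra.IsIntegral (𝓞 F) (𝓞 Ω) := inferInstance
  haveI : 𝔭.asIdeal.IsMaximal := 𝔭.isMaximal
  haveI hlies : Q.LiesOver 𝔭.asIdeal := ⟨h.symm⟩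
  haveI : Q.IsMaximal := by
    apply Ideal.isMaximal_of_isIntegral_of_isMaximal_comap (R := 𝓞 F) Q
    rw [show Ideal.comap (algebraMap (𝓞 F) (𝓞 Ω)) Q = 𝔭.asIdeal from h]
    infer_instance
  haveI : Finite (𝓞 F ⧸ 𝔭.asIdeal) := Ideal.finiteQuotientOfFreeOfNeBot _ 𝔭.ne_bot
  letI : Fintype (𝓞 F ⧸ 𝔭.asIdeal) := Fintype.ofFinite _
  letI : Field (𝓞 F ⧸ 𝔭.asIdeal) := Ideal.Quotient.field _
  letI : Field (𝓞 Ω ⧸ Q) := Ideal.Quotient.field _
  haveI : Algebra.IsAlgebraic (𝓞 F ⧸ 𝔭.asIdeal) (𝓞 Ω ⧸ Q) := Algebra.IsIntegral.isAlgebraic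
  obtain ⟨⟨σ, hσ⟩, hσ2⟩ := Ideal.Quotient.stabilizerHom_surjective_of_profinite (G := Gal(Ω/F))
    𝔭.asIdeal Q (FiniteField.frobeniusAlgEquivOfAlgebraic (𝓞 F ⧸ 𝔭.asIdeal) (𝓞 Ω ⧸ Q))
  refine ⟨⟨Q, hQ, hlies.over.symm, σ, fun x => ?_⟩, rfl⟩
  have h1 := DFunLike.congr_fun hσ2 (Ideal.Quotient.mk Q x)
  have h2 : Ideal.Quotient.mk Q (σ • x) = Ideal.Quotient.mk Q x ^ Fintype.card (𝓞 F ⧸ 𝔭.asIdeal) := h1
  rw [← map_pow, Ideal.Quotient.eq] at h2
  have h3 : Nat.card (𝓞 F ⧸ Q.under (𝓞 F)) = Fintype.card (𝓞 F ⧸ 𝔭.asIdeal) := by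
    rw [← hlies.over, Nat.card_eq_fintype_card]
  rw [h3]
  exact h2

/-- powers of Frobenius modulo the prime -/
lemma mk_frob_pow {𝔭 : HeightOneSpectrum (𝓞 F)} (D : FrobeniusAt Ω 𝔭) (n : ℕ) (x : 𝓞 Ω) :
    Ideal.Quotient.mk D.Q ((D.φ ^ n) • x) =
      (Ideal.Quotient.mk D.Q x) ^ (Nat.card (𝓞 F ⧸ 𝔭.asIdeal) ^ n) := by
  have h1 : ∀ y : 𝓞 Ω, Ideal.Quotient.mk D.Q (D.φ • y) =
      (Ideal.Quotient.mk D.Q y) ^ Nat.card (𝓞 F ⧸ 𝔭.asIdeal) := by
    intro y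
    have h2 := D.isArithFrob y
    rw [D.under_eq] at h2
    rw [← map_pow, Ideal.Quotient.eq]
    exact h2
  induction n with
  | zero => rw [pow_zero, one_smul, pow_zero, pow_one]
  | succ n ih => rw [pow_succ', mul_smul, h1, ih, ← pow_mul, pow_succ]

end FrobAt

section Main

variable {k : Type*} [Field k] [NumberField k] {Ω : Type*} [Field Ω] [Algebra k Ω] [IsGalois k Ω]

/-- almost all primes are unramified in a finite extension -/
lemma finite_ramified (M : IntermediateField k Ω) [FiniteDimensional k M] :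
    {𝔭 : HeightOneSpectrum (𝓞 k) | ∃ Q : Ideal (𝓞 Ω), Q.IsPrime ∧
      Q.under (𝓞 k) = 𝔭.asIdeal ∧ ∃ σ ∈ Q.inertia Gal(Ω/k), σ ∉ M.fixingSubgroup}.Finite := by
  classical
  obtain ⟨α, N₁, hN₁, hgen, -⟩ := exists_integral_primitive k M
  obtain ⟨N, hN0, hN⟩ := redHom_injective (Ω := Ω) (k := k) (K := M) α N₁ hN₁ hgen
  have hI : Ideal.span {(N : 𝓞 k)} ≠ ⊥ := by
    rw [Ne, Ideal.span_singleton_eq_bot]
    exact_mod_cast hN0
  refine (Ideal.finite_factors hI).subset ?_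
  rintro 𝔭 ⟨Q, hQ, hQ2, σ, hσ, hne⟩
  by_contra hcon
  apply hne
  have hmem : (N : 𝓞 Ω) ∉ Q := by
    intro hm
    apply hcon
    change 𝔭.asIdeal ∣ _
    rw [Ideal.dvd_span_singleton, ← hQ2, Ideal.mem_comap, map_natCast]
    exact hm
  have h1 : ((σ : Ω →ₐ[k] Ω).comp M.val) = M.val := by
    apply hN Q hQ hmem
    ext x
    rw [redHom_apply, redHom_apply, Ideal.Quotient.eq]
    exact hσ (RingOfIntegers.mapAlgHom M.val x)
  rw [IntermediateField.mem_fixingSubgroup_iff]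
  intro x hx
  exact DFunLike.congr_fun h1 ⟨x, hx⟩

variable {V W : Type*} [AddCommGroup V] [Module ℂ V] [FiniteDimensional ℂ V]
  [AddCommGroup W] [Module ℂ W] [FiniteDimensional ℂ W]

/-- coordinates of a tensor along a basis of the second factor -/
noncomputable def tcoord {ι : Type*} (b : Basis ι ℂ W) (j : ι) : V ⊗[ℂ] W →ₗ[ℂ] V :=
  (TensorProduct.rid ℂ V).toLinearMap ∘ₗ (LinearMap.lTensor V (b.coord j))

lemma tcoord_tmul {ι : Type*} (b : Basis ι ℂ W) (j : ι) (v : V) (w : W) :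
    tcoord b j (v ⊗ₜ[ℂ] w) = b.coord j w • v := by
  unfold tcoord
  rw [LinearMap.comp_apply, LinearMap.lTensor_tmul]
  exact TensorProduct.rid_tmul _ _

lemma tcoord_map {ι : Type*} (b : Basis ι ℂ W) (j : ι) (f : V →ₗ[ℂ] V) (u : V ⊗[ℂ] W) :
    tcoord b j (TensorProduct.map f LinearMap.id u) = f (tcoord b j u) := by
  induction u using TensorProduct.induction_on with
  | zero => simp
  | tmul v w => rw [TensorProduct.map_tmul, tcoord_tmul, tcoord_tmul, map_smul]; rfl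
  | add x y hx hy => rw [map_add, map_add, hx, hy, map_add, map_add]

lemma exists_tcoord_ne {ι : Type*} [Finite ι] (b : Basis ι ℂ W) (u : V ⊗[ℂ] W) (hu : u ≠ 0) :
    ∃ j, tcoord b j u ≠ 0 := by
  classical
  cases nonempty_fintype ι
  by_contra hcon
  push Not at hcon
  apply hu
  have h1 : ∀ x : V ⊗[ℂ] W, x = ∑ j, tcoord b j x ⊗ₜ[ℂ] b j := by
    intro x
    induction x using TensorProduct.induction_on with
    | zero => simp
    | tmul v w =>
      conv_lhs => rw [← b.sum_repr w, TensorProduct.tmul_sum]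
      refine Finset.sum_congr rfl fun j _ => ?_
      rw [tcoord_tmul, TensorProduct.tmul_smul, TensorProduct.smul_tmul']
      rfl
    | add x y hx hy =>
      conv_lhs => rw [hx, hy]
      rw [← Finset.sum_add_distrib]
      refine Finset.sum_congr rfl fun j _ => ?_
      rw [map_add, TensorProduct.add_tmul]
  rw [h1 u]
  refine Finset.sum_eq_zero fun j _ => ?_
  rw [hcon j, TensorProduct.zero_tmul]

/-- Weights of a twist. -/
theorem twist_weights {ρ : Representation ℂ Gal(Ω/k) V} (hρ : WeightsLeTwo (RingHom.id ℂ) ρ)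
    (M : IntermediateField k Ω) [FiniteDimensional k M] [Normal k M]
    (χ : Representation ℂ Gal(M/k) W) (𝔭 : HeightOneSpectrum (𝓞 k)) (D : FrobeniusAt Ω 𝔭) (z : ℂ)
    (hz : z ∈ (geomFrob (twist ρ χ) D).charpoly.roots) : ‖z‖ ≤ Ideal.absNorm 𝔭.asIdeal := by
  classical
  haveI := D.isPrime
  set τ := twist ρ χ with hτ
  -- the prime of `M`
  let 𝔓 : HeightOneSpectrum (𝓞 M) :=
    { asIdeal := D.Q.under (𝓞 M)
      isPrime := inferInstance
      ne_bot := by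
        intro h0
        apply 𝔭.ne_bot
        have h1 : (D.Q.under (𝓞 M)).under (𝓞 k) = D.Q.under (𝓞 k) :=
          Ideal.under_under (A := 𝓞 k) (B := 𝓞 M) D.Q
        rw [← D.under_eq, ← h1, h0]
        ext x
        simp only [Ideal.mem_comap, Ideal.mem_bot]
        constructor
        · intro hx
          exact (FaithfulSMul.algebraMap_injective (𝓞 k) (𝓞 M)) (by rw [hx, map_zero])
        · rintro rfl
          simp }
  obtain ⟨D', hD'⟩ := exists_frobeniusAt_prime (F := M) 𝔓 D.Q D.isPrime rfl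
  have hbelow : 𝔓.asIdeal.under (𝓞 k) = 𝔭.asIdeal := by
    rw [← D.under_eq]
    exact Ideal.under_under (A := 𝓞 k) (B := 𝓞 M) D.Q
  -- norms
  obtain ⟨f, hf0, hf⟩ : ∃ f : ℕ, f ≠ 0 ∧
      Nat.card (𝓞 M ⧸ 𝔓.asIdeal) = Nat.card (𝓞 k ⧸ 𝔭.asIdeal) ^ f := by
    haveI : Finite (𝓞 M ⧸ 𝔓.asIdeal) := finite_quot _
    haveI : Finite (𝓞 k ⧸ 𝔭.asIdeal) := finite_quot _
    haveI : 𝔓.asIdeal.LiesOver 𝔭.asIdeal := ⟨hbelow.symm⟩
    letI : Field (𝓞 k ⧸ 𝔭.asIdeal) := Ideal.Quotient.field _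
    haveI : Nontrivial (𝓞 M ⧸ 𝔓.asIdeal) := Ideal.Quotient.nontrivial_iff.mpr 𝔓.isPrime.ne_top
    refine ⟨Module.finrank (𝓞 k ⧸ 𝔭.asIdeal) (𝓞 M ⧸ 𝔓.asIdeal), ?_, Module.natCard_eq_pow_finrank⟩
    intro h0
    have h1 : Nat.card (𝓞 M ⧸ 𝔓.asIdeal) = 1 := by
      rw [Module.natCard_eq_pow_finrank (K := 𝓞 k ⧸ 𝔭.asIdeal) (V := 𝓞 M ⧸ 𝔓.asIdeal), h0, pow_zero]
    have h2 : 1 < Nat.card (𝓞 M ⧸ 𝔓.asIdeal) := Finite.one_lt_card
    omega
  set φ' : Gal(Ω/k) := AlgEquiv.restrictScalarsHom k D'.φ with hφ'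
  have hstab : D.φ • D.Q = D.Q := D.isArithFrob.mem_stabilizer
  -- the difference is in inertia
  have hin : (D.φ ^ f)⁻¹ * φ' ∈ D.Q.inertia Gal(Ω/k) := by
    intro x
    have h1 : φ' • x - (D.φ ^ f) • x ∈ D.Q := by
      rw [← Ideal.Quotient.eq, mk_frob_pow, ← hf]
      have h2 := D'.isArithFrob x
      rw [D'.under_eq, hD'] at h2
      rw [← map_pow, Ideal.Quotient.eq]
      exact h2
    have h2 : (D.φ ^ f)⁻¹ ∈ MulAction.stabilizer Gal(Ω/k) D.Q :=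
      inv_mem (pow_mem (MulAction.mem_stabilizer_iff.mpr hstab) f)
    have h3 : (D.φ ^ f)⁻¹ • (φ' • x - (D.φ ^ f) • x) ∈ (D.φ ^ f)⁻¹ • D.Q :=
      Ideal.smul_mem_pointwise_smul _ _ _ h1
    rw [MulAction.mem_stabilizer_iff.mp h2, smul_sub, inv_smul_smul, ← mul_smul] at h3
    exact h3
  -- the eigenvector
  rw [mem_roots_charpoly] at hz
  obtain ⟨u, hu0, hu⟩ := hz
  have hu1 : τ D.φ⁻¹ (u : V ⊗[ℂ] W) = z • (u : V ⊗[ℂ] W) := by
    rw [← geomFrob_apply, hu]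
    rfl
  have hupow : ∀ n : ℕ, (τ D.φ⁻¹ ^ n) (u : V ⊗[ℂ] W) = z ^ n • (u : V ⊗[ℂ] W) := by
    intro n
    induction n with
    | zero => simp
    | succ n ih => rw [pow_succ, Module.End.mul_apply, hu1, map_smul, ih, smul_smul, pow_succ']
  have huφ : τ φ'⁻¹ (u : V ⊗[ℂ] W) = z ^ f • (u : V ⊗[ℂ] W) := by
    have e : φ'⁻¹ = ((D.φ ^ f)⁻¹ * φ')⁻¹ * (D.φ⁻¹) ^ f := by
      rw [inv_pow, mul_inv_rev, inv_inv, mul_assoc, mul_inv_cancel, mul_one]
    rw [e, map_mul, map_pow, Module.End.mul_apply, hupow, map_smul,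
      u.2 _ (inv_mem hin)]
  -- restriction to `M`
  have hτM : ∀ σ : Gal(Ω/M), τ (AlgEquiv.restrictScalarsHom k σ) =
      TensorProduct.map (ρ (AlgEquiv.restrictScalarsHom k σ)) LinearMap.id := by
    intro σ
    have h1 : AlgEquiv.restrictNormalHom M (AlgEquiv.restrictScalarsHom k σ : Gal(Ω/k)) = 1 := by
      have h2 : (AlgEquiv.restrictScalarsHom k σ : Gal(Ω/k)) ∈
          (AlgEquiv.restrictNormalHom (F := k) (K₁ := Ω) M).ker := by
        rw [IntermediateField.restrictNormalHom_ker, IntermediateField.mem_fixingSubgroup_iff]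
        intro x hx
        exact σ.commutes ⟨x, hx⟩
      exact h2
    have h3 : τ (AlgEquiv.restrictScalarsHom k σ) =
        TensorProduct.map (ρ (AlgEquiv.restrictScalarsHom k σ))
          (χ (AlgEquiv.restrictNormalHom M (AlgEquiv.restrictScalarsHom k σ : Gal(Ω/k)))) := rfl
    rw [h3, h1, map_one]
    rfl
  let b := Module.finBasis ℂ W
  have hu0' : (u : V ⊗[ℂ] W) ≠ 0 := fun h => hu0 (Subtype.ext h)
  obtain ⟨j, hj⟩ := exists_tcoord_ne b (u : V ⊗[ℂ] W) hu0'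
  set v : V := tcoord b j (u : V ⊗[ℂ] W) with hv
  have hvinv : v ∈ inertiaInvariants (resRep ρ M) D'.Q := by
    intro σ hσ
    rw [hD'] at hσ
    have h1 : τ (AlgEquiv.restrictScalarsHom k σ) (u : V ⊗[ℂ] W) = u :=
      u.2 (AlgEquiv.restrictScalarsHom k σ) hσ
    rw [hτM] at h1
    change ρ (AlgEquiv.restrictScalarsHom k σ) v = v
    rw [hv, ← tcoord_map, h1]
  have hvφ : ρ φ'⁻¹ v = z ^ f • v := by
    have e : φ'⁻¹ = AlgEquiv.restrictScalarsHom k D'.φ⁻¹ := by rw [hφ', map_inv]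
    rw [hv, ← tcoord_map, e, ← hτM, ← e, huφ, map_smul]
  have hroot : z ^ f ∈ (geomFrob (resRep ρ M) D').charpoly.roots := by
    rw [mem_roots_charpoly]
    refine ⟨⟨v, hvinv⟩, fun h => hj (congrArg Subtype.val h), ?_⟩
    apply Subtype.ext
    rw [geomFrob_apply]
    have e : φ'⁻¹ = AlgEquiv.restrictScalarsHom k D'.φ⁻¹ := by rw [hφ', map_inv]
    have h1 : resRep ρ M D'.φ⁻¹ v = ρ φ'⁻¹ v := by rw [e]; rfl
    exact h1.trans hvφ
  have hfin := hρ.weights M 𝔓 D' (z ^ f) (by rw [Polynomial.map_id]; exact hroot)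
  rw [norm_pow, Ideal.absNorm_apply, Submodule.cardQuot_apply, hf] at hfin
  rw [Ideal.absNorm_apply, Submodule.cardQuot_apply]
  push_cast at hfin
  exact le_of_pow_le_pow_left₀ hf0 (Nat.cast_nonneg _) hfin

end Main

end Pool.Agent.H3.Artin
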