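import Mathlib
import Pool.Agent.H3.Artin.Twist
import Pool.Agent.H3.Artin.MeanChar

open NumberField IsDedekindDomain Filter Topology Module
open scoped TensorProduct

namespace Pool.Agent.H3.Artin

open TatePole Cheb

section Local

variable {k : Type*} [Field k] [NumberField k] {Ω : Type*} [Field Ω] [Algebra k Ω] [IsGalois k Ω]
variable {V : Type*} [AddCommGroup V] [Module ℂ V] [FiniteDimensional ℂ V]

/-- `ρ` is unramified at `𝔭` -/
def Unram (ρ : Representation ℂ Gal(Ω/k) V) (𝔭 : HeightOneSpectrum (𝓞 k)) : Prop :=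
  ∀ Q : Ideal (𝓞 Ω), Q.IsPrime → Q.under (𝓞 k) = 𝔭.asIdeal → ∀ σ ∈ Q.inertia Gal(Ω/k), ρ σ = 1

lemma finite_not_unram {ρ : Representation ℂ Gal(Ω/k) V} (hρ : WeightsLeTwo (RingHom.id ℂ) ρ) :
    {𝔭 | ¬ Unram ρ 𝔭}.Finite := by
  refine hρ.unramified.subset fun 𝔭 h => ?_
  unfold Unram at h
  rw [Set.mem_ofPred_eq] at h
  push Not at h
  exact h

/-- the sum of the Frobenius eigenvalues at an unramified prime -/
lemma sum_eigs (ρ : Representation ℂ Gal(Ω/k) V) {𝔭 : HeightOneSpectrum (𝓞 k)} (h : Unram ρ 𝔭) :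
    (eigs (RingHom.id ℂ) ρ 𝔭).sum = ρ.character (frobeniusAt Ω 𝔭).φ⁻¹ := by
  unfold eigs
  rw [Polynomial.map_id, charpoly_geomFrob_of_unramified ρ _
    (h _ (frobeniusAt Ω 𝔭).isPrime (frobeniusAt Ω 𝔭).under_eq), ← trace_eq_sum_roots]
  rfl

/-- logarithm of the `L`-function in terms of the normalised traces -/
lemma log_LFunction_base (ρ : Representation ℂ Gal(Ω/k) V)
    (hw : ∀ (𝔭 : HeightOneSpectrum (𝓞 k)) (D : FrobeniusAt Ω 𝔭) (z : ℂ),
      z ∈ (geomFrob ρ D).charpoly.roots → ‖z‖ ≤ Ideal.absNorm 𝔭.asIdeal) :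
    Bdd (ctr (RingHom.id ℂ) ρ) ∧ ∃ C : ℝ, ∀ t : ℝ, 1 < t →
      |Real.log ‖LFunction (RingHom.id ℂ) ρ ((t + 1 : ℝ) : ℂ)‖ - wsum (ctr (RingHom.id ℂ) ρ) t| ≤ C := by
  have hR : ∀ v : HeightOneSpectrum (𝓞 k), ∀ z ∈ eigs (RingHom.id ℂ) ρ v, ‖z‖ ≤ nrm v := by
    intro v z hz
    unfold eigs at hz
    rw [Polynomial.map_id] at hz
    exact hw v _ z hz
  refine ⟨⟨finrank ℂ V, fun v => abs_ctr_le (RingHom.id ℂ) ρ v (hR v)⟩, ?_⟩
  obtain ⟨C₁, hC₁⟩ := euler_log_bound (finrank ℂ V) (eigs (RingHom.id ℂ) ρ)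
    (card_eigs_le (RingHom.id ℂ) ρ) hR
  refine ⟨C₁, fun t ht => ?_⟩
  have h1 := hC₁ (t + 1) (by linarith)
  rw [← LFunction_eq, add_sub_cancel_right] at h1
  exact h1

end Local

section Bessel

variable {k : Type*} [Field k] [NumberField k] {𝒰 : Ultrafilter ℝ}

lemma bdd_of_norm {u : HeightOneSpectrum (𝓞 k) → ℝ} (C : ℝ) (h : ∀ v, |u v| ≤ C) : Bdd u := ⟨C, h⟩

/-- Bessel's inequality for complex valued functions -/
lemma bessel_complex (h𝒰 : (𝒰 : Filter ℝ) ≤ 𝓝[>] 1) {ι : Type*} [Fintype ι] [DecidableEq ι]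
    (δ : HeightOneSpectrum (𝓞 k) → ℂ) (x : ι → HeightOneSpectrum (𝓞 k) → ℂ) (B : ℝ)
    (hδ : ∀ v, ‖δ v‖ ≤ B) (C : ι → ℝ) (hx : ∀ i v, ‖x i v‖ ≤ C i)
    (horth : ∀ i j, mu 𝒰 (fun v => (x i v * (starRingEnd ℂ) (x j v)).re) = if i = j then 1 else 0) :
    ∑ i, (mu 𝒰 (fun v => (δ v * x i v).re)) ^ 2 ≤ B ^ 2 := by
  classical
  set c : ι → ℝ := fun i => mu 𝒰 (fun v => (δ v * x i v).re) with hc
  have hbδx : ∀ i, Bdd (fun v => (δ v * x i v).re) := by
    intro i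
    refine ⟨B * C i, fun v => (Complex.abs_re_le_norm _).trans ?_⟩
    rw [norm_mul]
    exact mul_le_mul (hδ v) (hx i v) (norm_nonneg _) ((norm_nonneg _).trans (hδ v))
  have hbxx : ∀ i j, Bdd (fun v => (x i v * (starRingEnd ℂ) (x j v)).re) := by
    intro i j
    refine ⟨C i * C j, fun v => (Complex.abs_re_le_norm _).trans ?_⟩
    rw [norm_mul, Complex.norm_conj]
    exact mul_le_mul (hx i v) (hx j v) (norm_nonneg _) ((norm_nonneg _).trans (hx i v))
  have hpt : ∀ v, ∑ i, (2 * c i) * (δ v * x i v).re ≤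
      B ^ 2 + ∑ i, ∑ j, (c i * c j) * (x i v * (starRingEnd ℂ) (x j v)).re := by
    intro v
    set F : ℂ := ∑ i, (c i : ℂ) * x i v with hF
    have e1 : ∑ i, (2 * c i) * (δ v * x i v).re = 2 * (δ v * F).re := by
      rw [hF, Finset.mul_sum, Complex.re_sum, Finset.mul_sum]
      refine Finset.sum_congr rfl fun i _ => ?_
      rw [show δ v * ((c i : ℂ) * x i v) = (c i : ℂ) * (δ v * x i v) by ring, Complex.re_ofReal_mul]
      ring
    have e2 : ∑ i, ∑ j, (c i * c j) * (x i v * (starRingEnd ℂ) (x j v)).re =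
        (F * (starRingEnd ℂ) F).re := by
      rw [hF, map_sum, Finset.sum_mul_sum, Complex.re_sum]
      refine Finset.sum_congr rfl fun i _ => ?_
      rw [Complex.re_sum]
      refine Finset.sum_congr rfl fun j _ => ?_
      rw [map_mul, Complex.conj_ofReal, show (c i : ℂ) * x i v * ((c j : ℂ) *
        (starRingEnd ℂ) (x j v)) = ((c i * c j : ℝ) : ℂ) * (x i v * (starRingEnd ℂ) (x j v)) by
          push_cast; ring, Complex.re_ofReal_mul]
    rw [e1, e2]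
    have e3 : 0 ≤ Complex.normSq (δ v - (starRingEnd ℂ) F) := Complex.normSq_nonneg _
    rw [Complex.normSq_sub, Complex.conj_conj] at e3
    have e4 : Complex.normSq (δ v) ≤ B ^ 2 := by
      rw [Complex.normSq_eq_norm_sq]
      exact pow_le_pow_left₀ (norm_nonneg _) (hδ v) 2
    have e5 : Complex.normSq ((starRingEnd ℂ) F) = (F * (starRingEnd ℂ) F).re := by
      rw [Complex.normSq_conj, Complex.mul_conj, Complex.ofReal_re]
    rw [e5] at e3
    linarith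
  have h1 := mu_mono h𝒰 (Bdd.sum Finset.univ fun i _ => (Bdd.const (2 * c i)).mul (hbδx i))
    ((Bdd.const (B ^ 2)).add (Bdd.sum Finset.univ fun i _ => Bdd.sum Finset.univ fun j _ =>
      (Bdd.const (c i * c j)).mul (hbxx i j))) hpt
  rw [mu_sum h𝒰 _ fun i _ => (Bdd.const (2 * c i)).mul (hbδx i),
    mu_add h𝒰 (Bdd.const _) (Bdd.sum Finset.univ fun i _ => Bdd.sum Finset.univ fun j _ =>
      (Bdd.const (c i * c j)).mul (hbxx i j)), mu_const h𝒰,
    mu_sum h𝒰 _ fun i _ => Bdd.sum Finset.univ fun j _ =>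
      (Bdd.const (c i * c j)).mul (hbxx i j)] at h1
  have h2 : ∀ i, mu 𝒰 (fun v => 2 * c i * (δ v * x i v).re) = 2 * c i * c i := fun i =>
    mu_const_mul h𝒰 _ (hbδx i)
  have h3 : ∀ i, mu 𝒰 (fun v => ∑ j, (c i * c j) * (x i v * (starRingEnd ℂ) (x j v)).re) =
      c i * c i := by
    intro i
    rw [mu_sum h𝒰 _ fun j _ => (Bdd.const (c i * c j)).mul (hbxx i j)]
    have : ∀ j, mu 𝒰 (fun v => (c i * c j) * (x i v * (starRingEnd ℂ) (x j v)).re) =
        if i = j then c i * c j else 0 := by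
      intro j
      rw [mu_const_mul h𝒰 _ (hbxx i j), horth]
      split_ifs
      · rw [mul_one]
      · rw [mul_zero]
    rw [Finset.sum_congr rfl fun j _ => this j, Finset.sum_ite_eq]
    simp
  rw [Finset.sum_congr rfl fun i _ => h2 i, Finset.sum_congr rfl fun i _ => h3 i] at h1
  have h4 : ∑ i, 2 * c i * c i = 2 * ∑ i, c i ^ 2 := by
    rw [Finset.mul_sum]
    exact Finset.sum_congr rfl fun i _ => by ring
  have h5 : ∑ i, c i * c i = ∑ i, c i ^ 2 := Finset.sum_congr rfl fun i _ => by ring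
  rw [h4, h5] at h1
  linarith

end Bessel

end Pool.Agent.H3.Artin
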