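import Mathlib
import Pool.Agent.H3.Artin.Bessel

open NumberField IsDedekindDomain Filter Topology Module
open scoped TensorProduct

namespace Pool.Agent.H3.Artin

open TatePole Cheb

section Main

variable {k : Type*} [Field k] [NumberField k] {Ω : Type*} [Field Ω] [Algebra k Ω] [IsGalois k Ω]
variable {V A : Type*} [AddCommGroup V] [Module ℂ V] [FiniteDimensional ℂ V]
  [AddCommGroup A] [Module ℂ A] [FiniteDimensional ℂ A]

/-- weights over the base field -/
lemma base_weights {ρ : Representation ℂ Gal(Ω/k) V} (hρ : WeightsLeTwo (RingHom.id ℂ) ρ)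
    (𝔭 : HeightOneSpectrum (𝓞 k)) (D : FrobeniusAt Ω 𝔭) (z : ℂ)
    (hz : z ∈ (geomFrob ρ D).charpoly.roots) : ‖z‖ ≤ Ideal.absNorm 𝔭.asIdeal := by
  rw [mem_roots_charpoly] at hz
  obtain ⟨v, hv0, hv⟩ := hz
  have hv1 : ρ D.φ⁻¹ (v : V) = z • (v : V) := by
    rw [← geomFrob_apply, hv]
    rfl
  let χ : Representation ℂ Gal((⊥ : IntermediateField k Ω)/k) ℂ := 1
  have hτ : ∀ (σ : Gal(Ω/k)) (y : V), twist ρ χ σ (y ⊗ₜ[ℂ] (1 : ℂ)) = (ρ σ y) ⊗ₜ[ℂ] (1 : ℂ) :=
    fun σ y => rfl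
  apply twist_weights hρ ⊥ χ 𝔭 D z
  rw [mem_roots_charpoly]
  refine ⟨⟨(v : V) ⊗ₜ[ℂ] (1 : ℂ), ?_⟩, ?_, ?_⟩
  · intro σ hσ
    rw [hτ, v.2 σ hσ]
  · intro h
    have h1 : (v : V) ⊗ₜ[ℂ] (1 : ℂ) = 0 := congrArg Subtype.val h
    have h2 := congrArg (TensorProduct.rid ℂ V) h1
    rw [TensorProduct.rid_tmul, one_smul, map_zero] at h2
    exact hv0 (Subtype.ext h2)
  · apply Subtype.ext
    rw [geomFrob_apply]
    change twist ρ χ D.φ⁻¹ ((v : V) ⊗ₜ[ℂ] (1 : ℂ)) = z • ((v : V) ⊗ₜ[ℂ] (1 : ℂ))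
    rw [hτ, hv1, TensorProduct.smul_tmul']

lemma twist_character {W : Type*} [AddCommGroup W] [Module ℂ W] [FiniteDimensional ℂ W]
    (ρ : Representation ℂ Gal(Ω/k) V) {M : IntermediateField k Ω} [Normal k M]
    (χ : Representation ℂ Gal(M/k) W) (σ : Gal(Ω/k)) :
    (twist ρ χ).character σ = ρ.character σ * χ.character (AlgEquiv.restrictNormalHom M σ) := by
  unfold twist
  rw [Representation.char_tensor]
  rfl

/-- a twist is unramified where both factors are -/
lemma unram_twist {W : Type*} [AddCommGroup W] [Module ℂ W] [FiniteDimensional ℂ W]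
    {ρ : Representation ℂ Gal(Ω/k) V} {M : IntermediateField k Ω} [Normal k M]
    (χ : Representation ℂ Gal(M/k) W) {𝔭 : HeightOneSpectrum (𝓞 k)} (h : Unram ρ 𝔭)
    (hM : ∀ Q : Ideal (𝓞 Ω), Q.IsPrime → Q.under (𝓞 k) = 𝔭.asIdeal →
      ∀ σ ∈ Q.inertia Gal(Ω/k), σ ∈ M.fixingSubgroup) : Unram (twist ρ χ) 𝔭 := by
  intro Q hQ hQ2 σ hσ
  have h1 := h Q hQ hQ2 σ hσ
  have h2 : AlgEquiv.restrictNormalHom M σ = 1 := by
    have h3 : σ ∈ (AlgEquiv.restrictNormalHom (F := k) (K₁ := Ω) M).ker := by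
      rw [IntermediateField.restrictNormalHom_ker]
      exact hM Q hQ hQ2 σ hσ
    exact h3
  have h3 : twist ρ χ σ = TensorProduct.map (ρ σ) (χ (AlgEquiv.restrictNormalHom M σ)) := rfl
  rw [h3, h1, h2, map_one]
  exact TensorProduct.map_id

variable [IsAlgClosed Ω]

/-- the defects along an ultrafilter -/
theorem defect_ultra {𝒰 : Ultrafilter ℝ} (h𝒰 : (𝒰 : Filter ℝ) ≤ 𝓝[>] 1)
    (ρ : Representation ℂ Gal(Ω/k) V) (hρ : WeightsLeTwo (RingHom.id ℂ) ρ)
    (α : Representation ℂ Gal(Ω/k) A) (L : IntermediateField k Ω) [FiniteDimensional k L]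
    [Normal k L] (hα : ∀ σ ∈ L.fixingSubgroup, α σ = 1)
    (ω : Gal(Ω/k) →* ℂ)
    (hω : {𝔭 : HeightOneSpectrum (𝓞 k) | ω (frobeniusAt Ω 𝔭).φ⁻¹ ≠ Ideal.absNorm 𝔭.asIdeal}.Finite)
    (cl : A →ₗ[ℂ] V) (hcl : Function.Injective cl)
    (hclω : ∀ σ a, ρ σ (cl a) = ω σ • cl (α σ a))
    (M : IntermediateField k Ω) [FiniteDimensional k M] [Normal k M]
    {ι : Type*} [Fintype ι] (W : ι → Type*) [∀ i, AddCommGroup (W i)] [∀ i, Module ℂ (W i)]
    [∀ i, FiniteDimensional ℂ (W i)] (χ : ∀ i, Representation ℂ Gal(M/k) (W i))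
    (hirr : ∀ i, (χ i).IsIrreducible) (hiso : ∀ i j, i ≠ j → IsEmpty ((χ i).Equiv (χ j))) :
    ∑ i, (mu 𝒰 (ctr (RingHom.id ℂ) (twist ρ (χ i))) -
      finrank ℂ (twist α (χ i)).invariants) ^ 2 ≤ ((finrank ℂ V : ℝ) - finrank ℂ A) ^ 2 := by
  classical
  let good : HeightOneSpectrum (𝓞 k) → Prop := fun 𝔭 =>
    Unram ρ 𝔭 ∧ ω (frobeniusAt Ω 𝔭).φ⁻¹ = Ideal.absNorm 𝔭.asIdeal
  let δ : HeightOneSpectrum (𝓞 k) → ℂ := fun 𝔭 => if good 𝔭 then
    ρ.character (frobeniusAt Ω 𝔭).φ⁻¹ / (nrm 𝔭 : ℝ) - α.character (frobeniusAt Ω 𝔭).φ⁻¹ else 0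
  let x : ι → HeightOneSpectrum (𝓞 k) → ℂ := fun i 𝔭 =>
    (χ i).character (AlgEquiv.restrictNormalHom M (frobeniusAt Ω 𝔭).φ⁻¹)
  have hBpos : 0 ≤ (finrank ℂ V : ℝ) - finrank ℂ A := by
    have := LinearMap.finrank_le_finrank_of_injective hcl
    have h2 : (finrank ℂ A : ℝ) ≤ finrank ℂ V := by exact_mod_cast this
    linarith
  have hδ : ∀ 𝔭, ‖δ 𝔭‖ ≤ (finrank ℂ V : ℝ) - finrank ℂ A := by
    intro 𝔭
    change ‖if good 𝔭 then _ else (0 : ℂ)‖ ≤ _
    split_ifs with hg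
    · have hN := nrm_pos 𝔭
      have hNc : ((nrm 𝔭 : ℝ) : ℂ) ≠ 0 := by exact_mod_cast hN.ne'
      have h1 := trace_sub_bound (ρ (frobeniusAt Ω 𝔭).φ⁻¹) cl hcl
        (((nrm 𝔭 : ℝ) : ℂ) • α (frobeniusAt Ω 𝔭).φ⁻¹) (fun a => by
          rw [hclω, hg.2, LinearMap.smul_apply, map_smul]
          congr 1) (nrm 𝔭) (fun z hz => by
          apply base_weights hρ 𝔭 (frobeniusAt Ω 𝔭) z
          rw [charpoly_geomFrob_of_unramified ρ _
            (hg.1 _ (frobeniusAt Ω 𝔭).isPrime (frobeniusAt Ω 𝔭).under_eq)]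
          exact hz)
      rw [map_smul, smul_eq_mul] at h1
      have e : ρ.character (frobeniusAt Ω 𝔭).φ⁻¹ / ((nrm 𝔭 : ℝ) : ℂ) -
          α.character (frobeniusAt Ω 𝔭).φ⁻¹ =
          (LinearMap.trace ℂ V (ρ (frobeniusAt Ω 𝔭).φ⁻¹) - ((nrm 𝔭 : ℝ) : ℂ) *
            LinearMap.trace ℂ A (α (frobeniusAt Ω 𝔭).φ⁻¹)) / ((nrm 𝔭 : ℝ) : ℂ) := by
        unfold Representation.character
        field_simp
      rw [e, norm_div, Complex.norm_real, Real.norm_of_nonneg hN.le, div_le_iff₀ hN]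
      exact h1
    · rw [norm_zero]
      exact hBpos
  have hx : ∀ i 𝔭, ‖x i 𝔭‖ ≤ ∑ g, ‖(χ i).character g‖ := by
    intro i 𝔭
    exact Finset.single_le_sum (f := fun g => ‖(χ i).character g‖) (fun g _ => norm_nonneg _)
      (Finset.mem_univ (AlgEquiv.restrictNormalHom M (frobeniusAt Ω 𝔭).φ⁻¹))
  -- orthogonality
  have horth : ∀ i j, mu 𝒰 (fun v => (x i v * (starRingEnd ℂ) (x j v)).re) =
      if i = j then 1 else 0 := by
    intro i j
    have h1 := chebotarev_sym (Ω := Ω) M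
      (fun g => ((χ i).character g * (starRingEnd ℂ) ((χ j).character g)).re) (fun y g => by
        have e1 := (χ i).char_conj g y⁻¹
        have e2 := (χ j).char_conj g y⁻¹
        rw [inv_inv] at e1 e2
        rw [e1, e2]) (fun g => by
        rw [character_inv, character_inv, Complex.conj_conj, ← Complex.conj_re, map_mul,
          Complex.conj_conj])
    have h2 : (∑ g, ((χ i).character g * (starRingEnd ℂ) ((χ j).character g)).re) /
        Fintype.card Gal(M/k) = if i = j then (1 : ℝ) else 0 := by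
      have hcard : (Nat.card Gal(M/k) : ℂ) ≠ 0 := by exact_mod_cast Nat.card_pos.ne'
      letI : Invertible (Nat.card Gal(M/k) : ℂ) := invertibleOfNonzero hcard
      haveI := hirr i
      haveI := hirr j
      have h3 := (χ i).char_orthonormal (χ j)
      have h4 : ∑ g, (χ i).character g * (χ j).character g⁻¹ =
          (Nat.card Gal(M/k) : ℂ) * (if i = j then 1 else 0) := by
        rw [← mul_inv_cancel_left₀ hcard (∑ g, (χ i).character g * (χ j).character g⁻¹), h3]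
        congr 1
        by_cases hij : i = j
        · subst hij
          rw [if_pos rfl, if_pos ⟨Representation.Equiv.refl _⟩]
        · rw [if_neg hij, if_neg]
          rintro ⟨e⟩
          exact (hiso j i (Ne.symm hij)).false e
      have h5 := congrArg Complex.re h4
      rw [Complex.re_sum] at h5
      have h6 : ∀ g, ((χ i).character g * (starRingEnd ℂ) ((χ j).character g)).re =
          ((χ i).character g * (χ j).character g⁻¹).re := by
        intro g
        rw [character_inv]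
      rw [Finset.sum_congr rfl fun g _ => h6 g, h5, ← Nat.card_eq_fintype_card]
      have h7 : (Nat.card Gal(M/k) : ℝ) ≠ 0 := by exact_mod_cast Nat.card_pos.ne'
      split_ifs
      · rw [mul_one, Complex.natCast_re, div_self h7]
      · rw [mul_zero, Complex.zero_re, zero_div]
    rw [h2] at h1
    rw [← mu_eq_of_mean h𝒰 h1]
    congr 1
    funext v
    change ((χ i).character (AlgEquiv.restrictNormalHom M (frobeniusAt Ω v).φ⁻¹) *
      (starRingEnd ℂ) ((χ j).character (AlgEquiv.restrictNormalHom M (frobeniusAt Ω v).φ⁻¹))).re = _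
    rw [map_inv, character_inv, character_inv, Complex.conj_conj, ← Complex.conj_re, map_mul,
      Complex.conj_conj]
  have hB := bessel_complex h𝒰 δ x _ hδ _ hx horth
  refine le_trans (le_of_eq ?_) hB
  refine Finset.sum_congr rfl fun i _ => ?_
  congr 1
  -- the means
  have hw := fun 𝔭 D z hz => twist_weights hρ M (χ i) 𝔭 D z hz
  have hbctr := (log_LFunction_base (twist ρ (χ i)) hw).1
  have hmean := mean_character (L ⊔ M) (twist α (χ i)) (fun σ hσ => by
    have h1 : σ ∈ L.fixingSubgroup := IntermediateField.fixingSubgroup_antitone le_sup_left hσ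
    have h2 : σ ∈ M.fixingSubgroup := IntermediateField.fixingSubgroup_antitone le_sup_right hσ
    have h3 : AlgEquiv.restrictNormalHom M σ = 1 := by
      have h3 : σ ∈ (AlgEquiv.restrictNormalHom (F := k) (K₁ := Ω) M).ker := by
        rw [IntermediateField.restrictNormalHom_ker]
        exact h2
      exact h3
    have h4 : twist α (χ i) σ = TensorProduct.map (α σ) (χ i (AlgEquiv.restrictNormalHom M σ)) := rfl
    rw [h4, hα σ h1, h3, map_one]
    exact TensorProduct.map_id)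
  have hmu := mu_eq_of_mean h𝒰 hmean
  have hbδ : Bdd (fun v => (δ v * x i v).re) := by
    refine ⟨((finrank ℂ V : ℝ) - finrank ℂ A) * ∑ g, ‖(χ i).character g‖, fun v =>
      (Complex.abs_re_le_norm _).trans ?_⟩
    rw [norm_mul]
    exact mul_le_mul (hδ v) (hx i v) (norm_nonneg _) hBpos
  have hbα : Bdd (fun 𝔭 : HeightOneSpectrum (𝓞 k) =>
      ((twist α (χ i)).character (frobeniusAt Ω 𝔭).φ⁻¹).re) := by
    -- values in a finite set
    have hs : Function.Surjective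
        (AlgEquiv.restrictNormalHom (F := k) (K₁ := Ω) ((L ⊔ M : IntermediateField k Ω))) :=
      AlgEquiv.restrictNormalHom_surjective Ω
    obtain ⟨τ', hτ'⟩ := exists_descend
      (AlgEquiv.restrictNormalHom (F := k) (K₁ := Ω) ((L ⊔ M : IntermediateField k Ω))) hs
      (twist α (χ i)) (fun σ hσ => by
        have hσ' := restrictNormal_eq_one hσ
        have h1 : σ ∈ L.fixingSubgroup := IntermediateField.fixingSubgroup_antitone le_sup_left hσ'
        have h2 : σ ∈ M.fixingSubgroup := IntermediateField.fixingSubgroup_antitone le_sup_right hσ'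
        have h3 : AlgEquiv.restrictNormalHom M σ = 1 := by
          have h3 : σ ∈ (AlgEquiv.restrictNormalHom (F := k) (K₁ := Ω) M).ker := by
            rw [IntermediateField.restrictNormalHom_ker]
            exact h2
          exact h3
        have h4 : twist α (χ i) σ =
          TensorProduct.map (α σ) (χ i (AlgEquiv.restrictNormalHom M σ)) := rfl
        rw [h4, hα σ h1, h3, map_one]
        exact TensorProduct.map_id)
    have h5 := bdd_comp (k := k) (fun g => (τ'.character g).re) (fun 𝔭 =>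
      AlgEquiv.restrictNormalHom ((L ⊔ M : IntermediateField k Ω)) (frobeniusAt Ω 𝔭).φ⁻¹)
    refine h5.imp fun C hC v => ?_
    have h6 := hC v
    have h7 : τ'.character (AlgEquiv.restrictNormalHom ((L ⊔ M : IntermediateField k Ω))
        (frobeniusAt Ω v).φ⁻¹) = (twist α (χ i)).character (frobeniusAt Ω v).φ⁻¹ := by
      unfold Representation.character
      rw [hτ']
    beta_reduce
    rw [← h7]
    exact h6
  rw [← hmu, ← sub_eq_iff_eq_add.mpr (mu_add h𝒰 hbδ hbα).symm.symm]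
  rw [sub_left_inj]
  refine mu_congr_finite h𝒰 hbctr (hbδ.add hbα) ?_
  refine (((finite_not_unram hρ).union hω).union (finite_ramified (Ω := Ω) M)).subset fun 𝔭 h𝔭 => ?_
  by_contra hcon
  simp only [Set.mem_union, not_or] at hcon
  obtain ⟨⟨hc1, hc2⟩, hc3⟩ := hcon
  have hg1 : Unram ρ 𝔭 := by
    by_contra h
    exact hc1 h
  have hg2 : ω (frobeniusAt Ω 𝔭).φ⁻¹ = Ideal.absNorm 𝔭.asIdeal := by
    by_contra h
    exact hc2 h
  have hg3 : ∀ Q : Ideal (𝓞 Ω), Q.IsPrime → Q.under (𝓞 k) = 𝔭.asIdeal →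
      ∀ σ ∈ Q.inertia Gal(Ω/k), σ ∈ M.fixingSubgroup := by
    intro Q hQ hQ2 σ hσ
    by_contra h
    exact hc3 ⟨Q, hQ, hQ2, σ, hσ, h⟩
  apply h𝔭
  have hNc : ((nrm 𝔭 : ℝ) : ℂ) ≠ 0 := by exact_mod_cast (nrm_pos 𝔭).ne'
  have hgood : good 𝔭 := ⟨hg1, hg2⟩
  unfold ctr
  rw [sum_eigs _ (unram_twist (χ i) hg1 hg3), twist_character, twist_character]
  change _ = ((if good 𝔭 then _ else (0 : ℂ)) * _).re + _
  rw [if_pos hgood, ← Complex.add_re, ← Complex.div_ofReal_re]
  congr 1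
  change _ = (ρ.character (frobeniusAt Ω 𝔭).φ⁻¹ / (nrm 𝔭 : ℝ) -
    α.character (frobeniusAt Ω 𝔭).φ⁻¹) *
    (χ i).character (AlgEquiv.restrictNormalHom M (frobeniusAt Ω 𝔭).φ⁻¹) + _
  field_simp
  ring

end Main

end Pool.Agent.H3.Artin
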