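import Mathlib
import Pool.Agent.H3.Artin.Defect

open NumberField IsDedekindDomain Filter Topology Module
open scoped TensorProduct

namespace Pool.Agent.H3.Artin

open TatePole Cheb

section Log

variable {k : Type*} [Field k] [NumberField k] {Ω : Type*} [Field Ω] [Algebra k Ω] [IsGalois k Ω]
variable {V : Type*} [AddCommGroup V] [Module ℂ V] [FiniteDimensional ℂ V]

lemma log_tendsto_mu {𝒰 : Ultrafilter ℝ} (h𝒰 : (𝒰 : Filter ℝ) ≤ 𝓝[>] 1)
    (ρ : Representation ℂ Gal(Ω/k) V)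
    (hw : ∀ (𝔭 : HeightOneSpectrum (𝓞 k)) (D : FrobeniusAt Ω 𝔭) (z : ℂ),
      z ∈ (geomFrob ρ D).charpoly.roots → ‖z‖ ≤ Ideal.absNorm 𝔭.asIdeal) :
    Tendsto (fun t : ℝ => Real.log ‖LFunction (RingHom.id ℂ) ρ ((t + 1 : ℝ) : ℂ)‖ / Lam t) 𝒰
      (𝓝 (mu 𝒰 (ctr (RingHom.id ℂ) ρ))) := by
  obtain ⟨hb, C, hC⟩ := log_LFunction_base ρ hw
  have h1 := mu_spec h𝒰 hb
  have h2 : Tendsto (fun t : ℝ => (Real.log ‖LFunction (RingHom.id ℂ) ρ ((t + 1 : ℝ) : ℂ)‖ -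
      wsum (ctr (RingHom.id ℂ) ρ) t) / Lam t) (𝓝[>] 1) (𝓝 0) := by
    have hCL : Tendsto (fun s => C / Lam s) (𝓝[>] 1) (𝓝 0) := Lam_tendsto.const_div_atTop C
    refine squeeze_zero_norm' ?_ hCL
    filter_upwards [self_mem_nhdsWithin, Lam_tendsto.eventually_gt_atTop 0] with s hs hL
    rw [norm_div, Real.norm_eq_abs, Real.norm_of_nonneg hL.le]
    exact div_le_div_of_nonneg_right (hC s hs) hL.le
  have h3 := Filter.Tendsto.add h1 (h2.mono_left h𝒰)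
  rw [add_zero] at h3
  refine h3.congr fun s => ?_
  ring

end Log

section Final

variable {k : Type*} [Field k] [NumberField k] {Ω : Type*} [Field Ω] [Algebra k Ω] [IsGalois k Ω]
variable {V A : Type*} [AddCommGroup V] [Module ℂ V] [FiniteDimensional ℂ V]
  [AddCommGroup A] [Module ℂ A] [FiniteDimensional ℂ A]
variable [IsAlgClosed Ω]

/-- the mean-square bound for the defects, near `s = 2` -/
theorem artin_defect_log
    (ρ : Representation ℂ Gal(Ω/k) V) (hρ : WeightsLeTwo (RingHom.id ℂ) ρ)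
    (α : Representation ℂ Gal(Ω/k) A) (L : IntermediateField k Ω) [FiniteDimensional k L]
    [Normal k L] (hα : ∀ σ ∈ L.fixingSubgroup, α σ = 1)
    (ω : Gal(Ω/k) →* ℂ)
    (hω : {𝔭 : HeightOneSpectrum (𝓞 k) | ω (frobeniusAt Ω 𝔭).φ⁻¹ ≠ Ideal.absNorm 𝔭.asIdeal}.Finite)
    (cl : A →ₗ[ℂ] V) (hcl : Function.Injective cl)
    (hclω : ∀ σ a, ρ σ (cl a) = ω σ • cl (α σ a))
    (M : IntermediateField k Ω) [FiniteDimensional k M] [Normal k M]
    {ι : Type*} [Fintype ι] (W : ι → Type*) [∀ i, AddCommGroup (W i)] [∀ i, Module ℂ (W i)]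
    [∀ i, FiniteDimensional ℂ (W i)] (χ : ∀ i, Representation ℂ Gal(M/k) (W i))
    (hirr : ∀ i, (χ i).IsIrreducible) (hiso : ∀ i j, i ≠ j → IsEmpty ((χ i).Equiv (χ j)))
    {ε : ℝ} (hε : 0 < ε) :
    ∀ᶠ s : ℝ in 𝓝[>] 2, ∑ i, (Real.log ‖LFunction (RingHom.id ℂ) (twist ρ (χ i)) s‖ /
      Real.log (1 / (s - 2)) - finrank ℂ (twist α (χ i)).invariants) ^ 2 ≤
      ((finrank ℂ V : ℝ) - finrank ℂ A) ^ 2 + ε := by
  classical
  have key : ∀ᶠ t : ℝ in 𝓝[>] 1, ∑ i, (Real.log ‖LFunction (RingHom.id ℂ) (twist ρ (χ i))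
      ((t + 1 : ℝ) : ℂ)‖ / Lam t - finrank ℂ (twist α (χ i)).invariants) ^ 2 ≤
      ((finrank ℂ V : ℝ) - finrank ℂ A) ^ 2 + ε := by
    refine Filter.mem_iff_ultrafilter.mpr fun 𝒰 h𝒰 => ?_
    have h1 := defect_ultra h𝒰 ρ hρ α L hα ω hω cl hcl hclω M W χ hirr hiso
    have h2 : ∀ i, Tendsto (fun t : ℝ => Real.log ‖LFunction (RingHom.id ℂ) (twist ρ (χ i))
        ((t + 1 : ℝ) : ℂ)‖ / Lam t) 𝒰 (𝓝 (mu 𝒰 (ctr (RingHom.id ℂ) (twist ρ (χ i))))) := fun i =>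
      log_tendsto_mu h𝒰 (twist ρ (χ i)) (fun 𝔭 D z hz => twist_weights hρ M (χ i) 𝔭 D z hz)
    have h3 : Tendsto (fun t : ℝ => ∑ i, (Real.log ‖LFunction (RingHom.id ℂ) (twist ρ (χ i))
        ((t + 1 : ℝ) : ℂ)‖ / Lam t - finrank ℂ (twist α (χ i)).invariants) ^ 2) 𝒰
        (𝓝 (∑ i, (mu 𝒰 (ctr (RingHom.id ℂ) (twist ρ (χ i))) -
          finrank ℂ (twist α (χ i)).invariants) ^ 2)) :=
      tendsto_finsetSum _ fun i _ => ((h2 i).sub_const _).pow 2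
    have h4 : ∑ i, (mu 𝒰 (ctr (RingHom.id ℂ) (twist ρ (χ i))) -
        finrank ℂ (twist α (χ i)).invariants) ^ 2 < ((finrank ℂ V : ℝ) - finrank ℂ A) ^ 2 + ε := by
      linarith
    exact (h3.eventually_lt_const h4).mono fun t ht => ht.le
  have hshift : Tendsto (fun s : ℝ => s - 1) (𝓝[>] 2) (𝓝[>] 1) := by
    rw [tendsto_nhdsWithin_iff]
    constructor
    · have : Continuous (fun s : ℝ => s - 1) := by fun_prop
      have h1 := (this.tendsto 2).mono_left (nhdsWithin_le_nhds (s := Set.Ioi 2))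
      have h2 : (2 : ℝ) - 1 = 1 := by norm_num
      rw [h2] at h1
      exact h1
    · filter_upwards [self_mem_nhdsWithin] with s hs
      have : (2 : ℝ) < s := hs
      change (1 : ℝ) < s - 1
      linarith
  filter_upwards [hshift.eventually key] with s hs
  have e1 : s - 1 + 1 = s := by ring
  have e2 : Lam (s - 1) = Real.log (1 / (s - 2)) := by
    unfold Lam
    rw [show s - 1 - 1 = s - 2 by ring]
  rw [e1, e2] at hs
  exact hs

/-- the bound for pole orders -/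
theorem artin_defect_pole
    (ρ : Representation ℂ Gal(Ω/k) V) (hρ : WeightsLeTwo (RingHom.id ℂ) ρ)
    (α : Representation ℂ Gal(Ω/k) A) (L : IntermediateField k Ω) [FiniteDimensional k L]
    [Normal k L] (hα : ∀ σ ∈ L.fixingSubgroup, α σ = 1)
    (ω : Gal(Ω/k) →* ℂ)
    (hω : {𝔭 : HeightOneSpectrum (𝓞 k) | ω (frobeniusAt Ω 𝔭).φ⁻¹ ≠ Ideal.absNorm 𝔭.asIdeal}.Finite)
    (cl : A →ₗ[ℂ] V) (hcl : Function.Injective cl)
    (hclω : ∀ σ a, ρ σ (cl a) = ω σ • cl (α σ a))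
    (M : IntermediateField k Ω) [FiniteDimensional k M] [Normal k M]
    {ι : Type*} [Fintype ι] (W : ι → Type*) [∀ i, AddCommGroup (W i)] [∀ i, Module ℂ (W i)]
    [∀ i, FiniteDimensional ℂ (W i)] (χ : ∀ i, Representation ℂ Gal(M/k) (W i))
    (hirr : ∀ i, (χ i).IsIrreducible) (hiso : ∀ i j, i ≠ j → IsEmpty ((χ i).Equiv (χ j)))
    (r : ι → ℤ) (hr : ∀ i, HasPoleOfOrder (LFunction (RingHom.id ℂ) (twist ρ (χ i))) 2 (r i)) :
    ∑ i, (r i - finrank ℂ (twist α (χ i)).invariants) ^ 2 ≤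
      ((finrank ℂ V : ℤ) - finrank ℂ A) ^ 2 := by
  classical
  obtain ⟨𝒰, h𝒰⟩ := Filter.exists_ultrafilter_le (𝓝[>] (1 : ℝ))
  have h1 := defect_ultra h𝒰 ρ hρ α L hα ω hω cl hcl hclω M W χ hirr hiso
  have h2 : ∀ i, mu 𝒰 (ctr (RingHom.id ℂ) (twist ρ (χ i))) = r i := by
    intro i
    have e1 := log_tendsto_mu h𝒰 (twist ρ (χ i))
      (fun 𝔭 D z hz => twist_weights hρ M (χ i) 𝔭 D z hz)
    exact tendsto_nhds_unique e1 ((hr i).tendsto.mono_left h𝒰)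
  simp only [h2] at h1
  exact_mod_cast h1

end Final

end Pool.Agent.H3.Artin
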