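import Mathlib
import Pool.Agent.H3.TatePole.Chain
import Pool.Agent.H3.Artin.Final

open NumberField IsDedekindDomain Filter Topology Module
open scoped TensorProduct

namespace Pool.Agent.H3.Artin

open TatePole Cheb

section Char

variable {k : Type*} [Field k] [NumberField k] {Ω : Type*} [Field Ω] [Algebra k Ω] [IsGalois k Ω]
variable {U : Type*} [AddCommGroup U] [Module ℂ U] [FiniteDimensional ℂ U]

/-- real part of the character at Frobenius elements -/
noncomputable def chfun (τ : Representation ℂ Gal(Ω/k) U) (𝔭 : HeightOneSpectrum (𝓞 k)) : ℝ :=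
  (τ.character (frobeniusAt Ω 𝔭).φ⁻¹).re

lemma chfun_bdd (M : IntermediateField k Ω) [FiniteDimensional k M] [Normal k M]
    (τ : Representation ℂ Gal(Ω/k) U) (hτ : ∀ σ ∈ M.fixingSubgroup, τ σ = 1) : Bdd (chfun τ) := by
  classical
  have hs : Function.Surjective (AlgEquiv.restrictNormalHom (F := k) (K₁ := Ω) M) :=
    AlgEquiv.restrictNormalHom_surjective Ω
  obtain ⟨τ', hτ'⟩ := exists_descend (AlgEquiv.restrictNormalHom (F := k) (K₁ := Ω) M) hs τ
    (fun σ hσ => hτ σ (by rw [← IntermediateField.restrictNormalHom_ker]; exact hσ))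
  have h5 := bdd_comp (k := k) (fun g => (τ'.character g).re) (fun 𝔭 =>
      AlgEquiv.restrictNormalHom M (frobeniusAt Ω 𝔭).φ⁻¹)
  refine h5.imp fun C hC v => ?_
  have h6 := hC v
  have h7 : τ'.character (AlgEquiv.restrictNormalHom M (frobeniusAt Ω v).φ⁻¹) =
      τ.character (frobeniusAt Ω v).φ⁻¹ := by
    unfold Representation.character
    rw [hτ']
  unfold chfun
  rw [← h7]
  exact h6

lemma chfun_descend (τ : Representation ℂ Gal(Ω/k) U) {K : IntermediateField k Ω}
    [FiniteDimensional k K] {𝔓 : HeightOneSpectrum (𝓞 K)} (h : nrm 𝔓 = nrm (below k 𝔓))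
    (hunr : ∀ Q : Ideal (𝓞 Ω), Q.IsPrime → Q.under (𝓞 k) = (below k 𝔓).asIdeal →
      ∀ σ ∈ Q.inertia Gal(Ω/k), τ σ = 1) :
    chfun (resRep τ K) 𝔓 = chfun τ (below k 𝔓) := by
  have h1 := ctr_descend (RingHom.id ℂ) τ h hunr
  unfold ctr at h1
  have h2 : (eigs (RingHom.id ℂ) τ (below k 𝔓)).sum =
      τ.character (frobeniusAt Ω (below k 𝔓)).φ⁻¹ := sum_eigs τ hunr
  have h3 : (eigs (RingHom.id ℂ) (resRep τ K) 𝔓).sum =
      (resRep τ K).character (frobeniusAt Ω 𝔓).φ⁻¹ := by
    refine sum_eigs (resRep τ K) ?_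
    intro Q hQ hQ2 σ hσ
    refine hunr Q hQ ?_ (AlgEquiv.restrictScalarsHom k σ) hσ
    rw [below_asIdeal, ← hQ2]
    exact (Ideal.under_under (A := 𝓞 k) (B := 𝓞 K) Q).symm
  rw [h2, h3, h] at h1
  have h4 := nrm_pos (below k 𝔓)
  unfold chfun
  field_simp at h1
  exact h1

variable [IsAlgClosed Ω]

lemma mean_chfun_PP (L : IntermediateField k Ω) [FiniteDimensional k L] [Normal k L]
    (τ : Representation ℂ Gal(Ω/k) U) (hτ : ∀ σ ∈ L.fixingSubgroup, τ σ = 1)
    (K : IntermediateField k Ω) [FiniteDimensional k K] :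
    HasMean (𝓝[>] 1) (fun 𝔭 : HeightOneSpectrum (𝓞 k) => chfun τ 𝔭 * PP K 𝔭)
      (finrank ℂ (resRep τ K).invariants) := by
  classical
  haveI : FiniteDimensional k (L ⊔ K : IntermediateField k Ω) :=
    IntermediateField.finiteDimensional_sup L K
  set M : IntermediateField k Ω :=
    IntermediateField.normalClosure k (L ⊔ K : IntermediateField k Ω) Ω with hM
  haveI : FiniteDimensional k M := inferInstance
  haveI : Normal k M := inferInstance
  have hKM : K ≤ M := le_sup_right.trans (IntermediateField.le_normalClosure _)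
  have hLM : L ≤ M := le_sup_left.trans (IntermediateField.le_normalClosure _)
  let M' : IntermediateField K Ω := IntermediateField.extendScalars hKM
  haveI : FiniteDimensional K M' := by
    have h1 : FiniteDimensional k M' := inferInstanceAs (FiniteDimensional k M)
    exact Module.Finite.of_restrictScalars_finite k K M'
  haveI : Normal K M' := by
    haveI : Normal k M' := inferInstanceAs (Normal k M)
    exact Normal.tower_top_of_normal k K M'
  have hτ' : ∀ σ ∈ M'.fixingSubgroup, resRep τ K σ = 1 := by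
    intro σ hσ
    refine hτ (AlgEquiv.restrictScalarsHom k σ) ?_
    rw [IntermediateField.mem_fixingSubgroup_iff] at hσ ⊢
    intro x hx
    exact hσ x (hLM hx)
  have hmean := mean_character (k := K) (Ω := Ω) M' (resRep τ K) hτ'
  obtain ⟨C, hC⟩ := wsum_compare (k := k) (K := K) (u := chfun τ) (U := chfun (resRep τ K))
    (chfun_bdd L τ hτ) (chfun_bdd M' (resRep τ K) hτ') (by
      have h1 : ((fun P : HeightOneSpectrum (𝓞 K) => below k P) ⁻¹'
          {𝔭 : HeightOneSpectrum (𝓞 k) | ∃ Q : Ideal (𝓞 Ω), Q.IsPrime ∧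
          Q.under (𝓞 k) = 𝔭.asIdeal ∧ ∃ σ ∈ Q.inertia Gal(Ω/k), σ ∉ L.fixingSubgroup}).Finite := by
        refine Set.Finite.preimage' (finite_ramified L) fun p _ => ?_
        exact (fiber_card (K := K) p).1
      refine h1.subset fun P hP => ?_
      by_contra hcon
      apply hP.2
      refine chfun_descend τ hP.1 fun Q hQ hQ2 σ hσ => ?_
      refine hτ σ ?_
      by_contra hne
      exact hcon ⟨Q, hQ, hQ2, σ, hσ, hne⟩)
  rw [PP_eq]
  refine tendsto_of_bounded_diff (C := C) ?_ hmean
  filter_upwards [self_mem_nhdsWithin] with s hs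
  exact hC s hs

end Char

end Pool.Agent.H3.Artin
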