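import Mathlib
import Pool.Agent.H3.TatePole.Double
import Pool.Agent.H3.Artin.MeanK

open NumberField IsDedekindDomain Filter Topology Module
open scoped TensorProduct

namespace Pool.Agent.H3.Artin

open TatePole Cheb

section Defect

variable {k : Type*} [Field k] [NumberField k] {Ω : Type*} [Field Ω] [Algebra k Ω] [IsGalois k Ω]
variable {V A : Type*} [AddCommGroup V] [Module ℂ V] [FiniteDimensional ℂ V]
  [AddCommGroup A] [Module ℂ A] [FiniteDimensional ℂ A]

open scoped Classical in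
/-- real part of the trace of Frobenius on the complement of the algebraic part -/
noncomputable def dfun (ρ : Representation ℂ Gal(Ω/k) V) (α : Representation ℂ Gal(Ω/k) A)
    (ω : Gal(Ω/k) →* ℂ) (𝔭 : HeightOneSpectrum (𝓞 k)) : ℝ :=
  if Unram ρ 𝔭 ∧ ω (frobeniusAt Ω 𝔭).φ⁻¹ = Ideal.absNorm 𝔭.asIdeal then
    (ρ.character (frobeniusAt Ω 𝔭).φ⁻¹ / (nrm 𝔭 : ℝ) - α.character (frobeniusAt Ω 𝔭).φ⁻¹).re
  else 0

lemma abs_dfun_le {ρ : Representation ℂ Gal(Ω/k) V} (hρ : WeightsLeTwo (RingHom.id ℂ) ρ)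
    {α : Representation ℂ Gal(Ω/k) A} {ω : Gal(Ω/k) →* ℂ}
    (cl : A →ₗ[ℂ] V) (hcl : Function.Injective cl)
    (hclω : ∀ σ a, ρ σ (cl a) = ω σ • cl (α σ a)) (𝔭 : HeightOneSpectrum (𝓞 k)) :
    |dfun ρ α ω 𝔭| ≤ ((finrank ℂ V - finrank ℂ A : ℕ) : ℝ) := by
  have hle := LinearMap.finrank_le_finrank_of_injective hcl
  unfold dfun
  split_ifs with hg
  · have hN := nrm_pos 𝔭
    have hNc : ((nrm 𝔭 : ℝ) : ℂ) ≠ 0 := by exact_mod_cast hN.ne'
    have h1 := trace_sub_bound (ρ (frobeniusAt Ω 𝔭).φ⁻¹) cl hcl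
      (((nrm 𝔭 : ℝ) : ℂ) • α (frobeniusAt Ω 𝔭).φ⁻¹) (fun a => by
        rw [hclω, hg.2, LinearMap.smul_apply, map_smul]
        congr 1) (nrm 𝔭) (fun z hz => by
        apply base_weights hρ 𝔭 (frobeniusAt Ω 𝔭) z
        rw [charpoly_geomFrob_of_unramified ρ _
          (hg.1 _ (frobeniusAt Ω 𝔭).isPrime (frobeniusAt Ω 𝔭).under_eq)]
        exact hz)
    rw [map_smul, smul_eq_mul] at h1
    have e : ρ.character (frobeniusAt Ω 𝔭).φ⁻¹ / ((nrm 𝔭 : ℝ) : ℂ) -
        α.character (frobeniusAt Ω 𝔭).φ⁻¹ =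
        (LinearMap.trace ℂ V (ρ (frobeniusAt Ω 𝔭).φ⁻¹) - ((nrm 𝔭 : ℝ) : ℂ) *
          LinearMap.trace ℂ A (α (frobeniusAt Ω 𝔭).φ⁻¹)) / ((nrm 𝔭 : ℝ) : ℂ) := by
      unfold Representation.character
      field_simp
    refine (Complex.abs_re_le_norm _).trans ?_
    rw [e, norm_div, Complex.norm_real, Real.norm_of_nonneg hN.le, div_le_iff₀ hN,
      Nat.cast_sub hle]
    exact h1
  · rw [abs_zero]
    positivity

/-- the defect function and the trace function -/
lemma cfun_eq_dfun {ρ : Representation ℂ Gal(Ω/k) V} (hρ : WeightsLeTwo (RingHom.id ℂ) ρ)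
    {α : Representation ℂ Gal(Ω/k) A} {ω : Gal(Ω/k) →* ℂ} (hω : {𝔭 : HeightOneSpectrum (𝓞 k) |
      ω (frobeniusAt Ω 𝔭).φ⁻¹ ≠ Ideal.absNorm 𝔭.asIdeal}.Finite) :
    {𝔭 : HeightOneSpectrum (𝓞 k) | cfun (RingHom.id ℂ) ρ 𝔭 ≠ dfun ρ α ω 𝔭 + chfun α 𝔭}.Finite := by
  refine ((finite_not_unram hρ).union hω).subset fun 𝔭 h𝔭 => ?_
  by_contra hcon
  simp only [Set.mem_union, not_or] at hcon
  obtain ⟨hc1, hc2⟩ := hcon
  have hg1 : Unram ρ 𝔭 := by
    by_contra h
    exact hc1 h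
  have hg2 : ω (frobeniusAt Ω 𝔭).φ⁻¹ = Ideal.absNorm 𝔭.asIdeal := by
    by_contra h
    exact hc2 h
  apply h𝔭
  have hctr : |ctr (RingHom.id ℂ) ρ 𝔭| ≤ finrank ℂ V := by
    refine abs_ctr_le (RingHom.id ℂ) ρ 𝔭 fun z hz => ?_
    unfold eigs at hz
    rw [Polynomial.map_id] at hz
    exact base_weights hρ 𝔭 _ z hz
  rw [cfun_eq_of_le _ _ _ hctr]
  unfold dfun chfun ctr
  rw [if_pos ⟨hg1, hg2⟩, sum_eigs ρ hg1, ← Complex.add_re, sub_add_cancel,
    Complex.div_ofReal_re]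

end Defect

section Main

variable {k : Type*} [Field k] [NumberField k] {Ω : Type*} [Field Ω] [Algebra k Ω] [IsGalois k Ω]
variable {V A : Type*} [AddCommGroup V] [Module ℂ V] [FiniteDimensional ℂ V]
  [AddCommGroup A] [Module ℂ A] [FiniteDimensional ℂ A]

/-- the growth of the `L`-function over `K` along the real axis is a mean value -/
lemma growth_iff {ρ : Representation ℂ Gal(Ω/k) V} (hρ : WeightsLeTwo (RingHom.id ℂ) ρ)
    (K : IntermediateField k Ω) [FiniteDimensional k K] (x : ℝ) :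
    Tendsto (fun s : ℝ => Real.log ‖LFunction (RingHom.id ℂ) (resRep ρ K) s‖ /
      Real.log (1 / (s - 2))) (𝓝[>] 2) (𝓝 x) ↔
    HasMean (𝓝[>] 1) (fun 𝔭 : HeightOneSpectrum (𝓞 k) => cfun (RingHom.id ℂ) ρ 𝔭 * PP K 𝔭) x := by
  obtain ⟨C, hC⟩ := log_LFunction (RingHom.id ℂ) ρ hρ K
  have hshift : Tendsto (fun s : ℝ => s - 1) (𝓝[>] 2) (𝓝[>] 1) := by
    rw [tendsto_nhdsWithin_iff]
    constructor
    · have : Continuous (fun s : ℝ => s - 1) := by fun_prop
      have h1 := (this.tendsto 2).mono_left (nhdsWithin_le_nhds (s := Set.Ioi 2))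
      have h2 : (2 : ℝ) - 1 = 1 := by norm_num
      rw [h2] at h1
      exact h1
    · filter_upwards [self_mem_nhdsWithin] with s hs
      have : (2 : ℝ) < s := hs
      change (1 : ℝ) < s - 1
      linarith
  have hshift' : Tendsto (fun s : ℝ => s + 1) (𝓝[>] 1) (𝓝[>] 2) := by
    rw [tendsto_nhdsWithin_iff]
    constructor
    · have : Continuous (fun s : ℝ => s + 1) := by fun_prop
      have h1 := (this.tendsto 1).mono_left (nhdsWithin_le_nhds (s := Set.Ioi 1))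
      have h2 : (1 : ℝ) + 1 = 2 := by norm_num
      rw [h2] at h1
      exact h1
    · filter_upwards [self_mem_nhdsWithin] with s hs
      have : (1 : ℝ) < s := hs
      change (2 : ℝ) < s + 1
      linarith
  rw [PP_eq]
  constructor
  · intro h
    have h1 := h.comp hshift'
    have h2 : Tendsto (fun t : ℝ => Real.log ‖LFunction (RingHom.id ℂ) (resRep ρ K)
        ((t + 1 : ℝ) : ℂ)‖ / Lam t) (𝓝[>] 1) (𝓝 x) := by
      refine h1.congr fun t => ?_
      simp only [Function.comp_apply]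
      have : t + 1 - 2 = t - 1 := by ring
      rw [this]
      rfl
    refine tendsto_of_bounded_diff (C := C) ?_ h2
    filter_upwards [self_mem_nhdsWithin] with t ht
    exact hC t ht
  · intro h
    have h2 : Tendsto (fun t : ℝ => Real.log ‖LFunction (RingHom.id ℂ) (resRep ρ K)
        ((t + 1 : ℝ) : ℂ)‖ / Lam t) (𝓝[>] 1) (𝓝 x) := by
      refine tendsto_of_bounded_diff (C := C) ?_ h
      filter_upwards [self_mem_nhdsWithin] with t ht
      have h1 := hC t ht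
      rw [abs_sub_comm] at h1
      exact h1
    refine (h2.comp hshift).congr fun s => ?_
    simp only [Function.comp_apply]
    have e1 : s - 1 + 1 = s := by ring
    have e2 : Lam (s - 1) = Real.log (1 / (s - 2)) := by
      unfold Lam
      rw [show s - 1 - 1 = s - 2 by ring]
    rw [e1, e2]

omit [IsGalois k Ω] [NumberField k] [Algebra k Ω] [Field Ω] [Field k] in
/-- a pole determines the growth -/
lemma _root_.Pool.Agent.H3.TatePole.HasPoleOfOrder.hasGrowth {L : ℂ → ℂ} {r : ℤ}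
    (h : HasPoleOfOrder L 2 r) : HasGrowth L r := by
  have hshift : Tendsto (fun s : ℝ => s - 1) (𝓝[>] 2) (𝓝[>] 1) := by
    rw [tendsto_nhdsWithin_iff]
    constructor
    · have : Continuous (fun s : ℝ => s - 1) := by fun_prop
      have h1 := (this.tendsto 2).mono_left (nhdsWithin_le_nhds (s := Set.Ioi 2))
      have h2 : (2 : ℝ) - 1 = 1 := by norm_num
      rw [h2] at h1
      exact h1
    · filter_upwards [self_mem_nhdsWithin] with s hs
      have : (2 : ℝ) < s := hs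
      change (1 : ℝ) < s - 1
      linarith
  refine (h.tendsto.comp hshift).congr fun s => ?_
  simp only [Function.comp_apply]
  have e1 : s - 1 + 1 = s := by ring
  have e2 : Lam (s - 1) = Real.log (1 / (s - 2)) := by
    unfold Lam
    rw [show s - 1 - 1 = s - 2 by ring]
  rw [e1, e2]

variable [IsAlgClosed Ω]

/-- **Continuity of the defect of the order formula.** -/
theorem defect_continuity
    (ρ : Representation ℂ Gal(Ω/k) V) (hρ : WeightsLeTwo (RingHom.id ℂ) ρ)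
    (α : Representation ℂ Gal(Ω/k) A) (L : IntermediateField k Ω) [FiniteDimensional k L]
    (hα : ∀ σ ∈ L.fixingSubgroup, α σ = 1)
    (ω : Gal(Ω/k) →* ℂ)
    (hω : {𝔭 : HeightOneSpectrum (𝓞 k) | ω (frobeniusAt Ω 𝔭).φ⁻¹ ≠ Ideal.absNorm 𝔭.asIdeal}.Finite)
    (cl : A →ₗ[ℂ] V) (hcl : Function.Injective cl)
    (hclω : ∀ σ a, ρ σ (cl a) = ω σ • cl (α σ a))
    (N : ℕ) (𝒦 : Set (IntermediateField k Ω)) (hfd : ∀ K ∈ 𝒦, FiniteDimensional k K)
    (hdc : ∀ K ∈ 𝒦, Nat.card (DoubleCoset.Quotient (K.fixingSubgroup : Set Gal(Ω/k))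
      K.fixingSubgroup) ≤ N)
    (hgr : ∀ K ∈ 𝒦, ∀ (_ : FiniteDimensional k K), ∃ r : ℤ, Tendsto (fun s : ℝ =>
      Real.log ‖LFunction (RingHom.id ℂ) (resRep ρ K) s‖ / Real.log (1 / (s - 2)))
        (𝓝[>] 2) (𝓝 r)) :
    ∃ (T : Finset (IntermediateField k Ω)) (D : IntermediateField k Ω → ℤ), (∀ F ∈ T, F ∈ 𝒦) ∧
      T.card ≤ 4 * (N - 1) * (finrank ℂ V - finrank ℂ A) ^ 2 ∧
      ∀ (K : IntermediateField k Ω) [FiniteDimensional k K], IsLimitOf 𝒦 K →
        Tendsto (fun s : ℝ =>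
          Real.log ‖LFunction (RingHom.id ℂ) (resRep ρ K) s‖ / Real.log (1 / (s - 2))) (𝓝[>] 2)
          (𝓝 (D (K ⊓ (IntermediateField.normalClosure k L Ω ⊔
            ⨆ F ∈ T, IntermediateField.normalClosure k F Ω)) + finrank ℂ (resRep α K).invariants)) := by
  classical
  set L' : IntermediateField k Ω := IntermediateField.normalClosure k L Ω with hL'
  have hα' : ∀ σ ∈ L'.fixingSubgroup, α σ = 1 := fun σ hσ =>
    hα σ (IntermediateField.fixingSubgroup_antitone (IntermediateField.le_normalClosure L) hσ)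
  haveI : FiniteDimensional k L' := inferInstance
  haveI : Normal k L' := inferInstance
  have hfin := cfun_eq_dfun (α := α) hρ hω
  have hbd : Bdd (dfun ρ α ω) := ⟨_, abs_dfun_le hρ cl hcl hclω⟩
  have hbc : Bdd (cfun (RingHom.id ℂ) ρ) := ⟨_, abs_cfun_le (RingHom.id ℂ) ρ⟩
  have hba : Bdd (chfun α) := chfun_bdd L' α hα'
  -- passing between the growth and the mean of the defect function
  have hpass : ∀ (K : IntermediateField k Ω) [FiniteDimensional k K] (x : ℝ),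
      Tendsto (fun s : ℝ => Real.log ‖LFunction (RingHom.id ℂ) (resRep ρ K) s‖ /
        Real.log (1 / (s - 2))) (𝓝[>] 2) (𝓝 (x + finrank ℂ (resRep α K).invariants)) ↔
      HasMean (𝓝[>] 1) (fun 𝔭 : HeightOneSpectrum (𝓞 k) => dfun ρ α ω 𝔭 * PP K 𝔭) x := by
    intro K _ x
    rw [growth_iff hρ K]
    have hm := mean_chfun_PP L' α hα' K
    have hfin1 : {𝔭 : HeightOneSpectrum (𝓞 k) | cfun (RingHom.id ℂ) ρ 𝔭 * PP K 𝔭 ≠
        dfun ρ α ω 𝔭 * PP K 𝔭 + chfun α 𝔭 * PP K 𝔭}.Finite := by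
      refine hfin.subset fun 𝔭 h𝔭 h => h𝔭 ?_
      rw [h, add_mul]
    constructor
    · intro h
      have h1 := hasMean_congr_finite le_rfl (hbc.mul (PP_bdd K))
        ((hbd.mul (PP_bdd K)).add (hba.mul (PP_bdd K))) hfin1 h
      have h2 := h1.add le_rfl ((hbd.mul (PP_bdd K)).add (hba.mul (PP_bdd K)))
        ((Bdd.const (-1)).mul (hba.mul (PP_bdd K))) (hm.const_mul (-1))
      have e1 : x + (finrank ℂ (resRep α K).invariants : ℝ) +
        -1 * (finrank ℂ (resRep α K).invariants : ℝ) = x := by ring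
      rw [e1] at h2
      convert h2 using 2
      ring
    · intro h
      have h1 := h.add le_rfl (hbd.mul (PP_bdd K)) (hba.mul (PP_bdd K)) hm
      refine hasMean_congr_finite le_rfl ((hbd.mul (PP_bdd K)).add (hba.mul (PP_bdd K)))
        (hbc.mul (PP_bdd K)) ?_ h1
      refine hfin1.subset fun 𝔭 h𝔭 => Ne.symm h𝔭
  have hgr' : ∀ K ∈ 𝒦, ∃ e : ℤ, HasMean (𝓝[>] 1) (fun 𝔭 : HeightOneSpectrum (𝓞 k) =>
      dfun ρ α ω 𝔭 * PP K 𝔭) e := by
    intro K hK
    haveI := hfd K hK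
    obtain ⟨r, hr⟩ := hgr K hK inferInstance
    refine ⟨r - finrank ℂ (resRep α K).invariants, ?_⟩
    rw [← hpass K]
    convert hr using 2
    push_cast
    ring
  choose! e he using hgr'
  obtain ⟨T, D, hT, hcard, hmain⟩ := continuity_of_means (k := k) (Ω := Ω)
    (c := dfun ρ α ω) (B := finrank ℂ V - finrank ℂ A) (abs_dfun_le hρ cl hcl hclω) hfd
    (fun K hK => by rw [← card_doubleCoset]; exact hdc K hK) e he L'
  refine ⟨T, D, hT, hcard, fun K hK hlim => ?_⟩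
  rw [hpass K]
  exact hmain K hlim

end Main

end Pool.Agent.H3.Artin
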